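import Pool.Agent.Helper406.Rec2.Pattern
import Pool.Agent.Helper406.Rec2.NegZ

/-!
# 2-recurrence: powers versus commuting transformations

We answer Bergelson's question (Q1) positively: an explicit strictly increasing sequence of
positive integers is good for 2-recurrence of powers (for all exponents `k₁, k₂ ∈ ℤ`), but it is
not good for 2-recurrence of commuting transformations.
-/

open MeasureTheory

universe u

namespace Pool.Agent.Results.MP_02e9fb_an.PowersNotCommuting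

/-- The integer powers of an invertible bimeasurable map, as bijections. -/
def zpw {X : Type u} [MeasurableSpace X] (T : X ≃ᵐ X) (n : ℤ) : Equiv.Perm X :=
  (T.toEquiv : Equiv.Perm X) ^ n

/-- `a` is good for 2-recurrence of powers. -/
def GoodPowers (a : ℕ → ℤ) : Prop :=
  ∀ (k₁ k₂ : ℤ) (X : Type u) [MeasurableSpace X] (μ : Measure X) [IsProbabilityMeasure μ]
    (T : X ≃ᵐ X), MeasurePreserving T μ μ → ∀ A : Set X, MeasurableSet A → 0 < μ A →
      ∃ n, a n ≠ 0 ∧ 0 < μ (A ∩ (zpw T (k₁ * a n)) ⁻¹' A ∩ (zpw T (k₂ * a n)) ⁻¹' A)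

/-- `a` is good for 2-recurrence of commuting transformations. -/
def GoodCommuting (a : ℕ → ℤ) : Prop :=
  ∀ (X : Type u) [MeasurableSpace X] (μ : Measure X) [IsProbabilityMeasure μ]
    (T₁ T₂ : X ≃ᵐ X), MeasurePreserving T₁ μ μ → MeasurePreserving T₂ μ μ →
      (∀ x, T₁ (T₂ x) = T₂ (T₁ x)) → ∀ A : Set X, MeasurableSet A → 0 < μ A →
      ∃ n, a n ≠ 0 ∧ 0 < μ (A ∩ (zpw T₁ (a n)) ⁻¹' A ∩ (zpw T₂ (a n)) ⁻¹' A)

/-- the modulus attached to the position `i`: every integer `≥ 3` occurs infinitely often -/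
def modulus (i : ℕ) : ℕ := (Nat.unpair i).1 + 3

/-- the scales -/
def scale : ℕ → ℕ
  | 0 => 1
  | i + 1 => scale i * (16 * 2 ^ i * (Nat.factorial (i + 3)) ^ 2)

/-- the weight (modulo one) of the digit `s` for the modulus `q` -/
noncomputable def weight (q s : ℕ) : ℝ := (((s % q : ℕ) : ℝ) - (s : ℝ) ^ 2) / (q : ℝ) ^ 2

/-- the set of values of the sequence -/
def digitSet : Set ℕ :=
  {N | ∃ (J : Finset ℕ) (s : ℕ → ℕ), (∀ i ∈ J, s i % modulus i ≤ 1 ∧ s i ≤ i) ∧
    (∀ k : ℤ, 1 / 10 ≤ |(∑ i ∈ J, weight (modulus i) (s i)) - k|) ∧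
    N = ∑ i ∈ J, s i * scale i}

/-- the increasing enumeration of `digitSet` -/
noncomputable def seq (n : ℕ) : ℤ := (Nat.nth (fun N => N ∈ digitSet) n : ℤ)

open Pool.Agent.Helper406.Rec2
open Pool.Agent.Helper406.Rec (avg ind ind_true ind_false emp emp_apply code code_iff cyl
  cyl_clopen Om shf shf_image limit_system)

lemma scale_eq (i : ℕ) : scale i = Lm i := by
  induction i with
  | zero => rfl
  | succ i ih => rw [scale, Lm, ih]

lemma mem_digitSet (N : ℕ) : N ∈ digitSet ↔ InT N := by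
  have h : ∀ (J : Finset ℕ) (s : ℕ → ℕ), ∑ i ∈ J, s i * scale i = ∑ i ∈ J, s i * Lm i := by
    intro J s
    simp only [scale_eq]
  constructor
  · rintro ⟨J, s, h1, h2, h3⟩
    exact ⟨J, s, h1, h2, h3.trans (h J s)⟩
  · rintro ⟨J, s, h1, h2, h3⟩
    exact ⟨J, s, h1, h2, h3.trans (h J s).symm⟩

lemma inT_pos {N : ℕ} (h : InT N) : 0 < N := by
  obtain ⟨J, s, _, h2, h3⟩ := h
  rcases Nat.eq_zero_or_pos N with h0 | h0
  · exfalso
    rw [h0] at h3
    have h4 : ∑ i ∈ J, om (qq i) (s i) = 0 := by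
      apply Finset.sum_eq_zero
      intro i hi
      have h5 := (Finset.sum_eq_zero_iff.1 h3.symm) i hi
      have h6 := Lm_pos i
      have h7 : s i = 0 := by
        rcases Nat.mul_eq_zero.1 h5 with h | h
        · exact h
        · omega
      rw [h7]
      simp [om]
    have h5 := h2 0
    rw [h4] at h5
    norm_num at h5
  · exact h0

lemma far_basic : Far (om 3 4) := by
  intro k
  have h1 : om 3 4 = -5 / 3 := by unfold om; norm_num
  rw [h1]
  by_contra hcon
  push Not at hcon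
  rw [abs_lt] at hcon
  obtain ⟨h2, h3⟩ := hcon
  have h4 : (k : ℝ) < -1 := by linarith
  have h5 : (-2 : ℝ) < k := by linarith
  have h6 : k < -1 := by exact_mod_cast h4
  have h7 : -2 < k := by exact_mod_cast h5
  omega

lemma Lm_strictMono : StrictMono Lm := by
  apply strictMono_nat_of_lt_succ
  intro i
  have h1 := Lm_succ_ge i
  have h2 := Lm_pos i
  have h3 : 1 ≤ 2 ^ i := Nat.one_le_two_pow
  have h4 : Lm i ≤ (i + 1) * Lm i := Nat.le_mul_of_pos_left _ (by omega)
  have h5 : 16 * ((i + 1) * Lm i) ≤ 16 * 2 ^ i * ((i + 1) * Lm i) := by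
    apply Nat.mul_le_mul_right
    omega
  omega

lemma digitSet_infinite : {N : ℕ | N ∈ digitSet}.Infinite := by
  apply Set.infinite_of_injective_forall_mem (f := fun m : ℕ => 4 * Lm (Nat.pair 0 (m + 4)))
  · intro a b hab
    have h1 : Lm (Nat.pair 0 (a + 4)) = Lm (Nat.pair 0 (b + 4)) := by
      have : 4 * Lm (Nat.pair 0 (a + 4)) = 4 * Lm (Nat.pair 0 (b + 4)) := hab
      omega
    have h2 := (Nat.pair_eq_pair.1 (Lm_strictMono.injective h1)).2
    omega
  · intro m
    show 4 * Lm (Nat.pair 0 (m + 4)) ∈ digitSet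
    rw [mem_digitSet]
    refine ⟨{Nat.pair 0 (m + 4)}, fun _ => 4, ?_, ?_, ?_⟩
    · intro i hi
      rw [Finset.mem_singleton] at hi
      subst hi
      have h1 : qq (Nat.pair 0 (m + 4)) = 3 := by
        unfold qq; rw [Nat.unpair_pair]
      have h2 := Nat.right_le_pair 0 (m + 4)
      rw [h1]
      constructor
      · norm_num
      · show 4 ≤ Nat.pair 0 (m + 4)
        omega
    · rw [Finset.sum_singleton]
      have h1 : qq (Nat.pair 0 (m + 4)) = 3 := by
        unfold qq; rw [Nat.unpair_pair]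
      rw [h1]
      exact far_basic
    · rw [Finset.sum_singleton]

lemma seq_mem (n : ℕ) : ∃ N : ℕ, InT N ∧ seq n = N :=
  ⟨_, (mem_digitSet _).1 (Nat.nth_mem_of_infinite digitSet_infinite n), rfl⟩

lemma exists_seq {N : ℕ} (h : InT N) : ∃ n, seq n = N := by
  have h1 : N ∈ Set.range (Nat.nth fun N => N ∈ digitSet) := by
    rw [Nat.range_nth_of_infinite digitSet_infinite]
    exact (mem_digitSet N).2 h
  obtain ⟨n, hn⟩ := h1
  refine ⟨n, ?_⟩
  unfold seq
  exact_mod_cast hn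

theorem goodPowers : GoodPowers.{u} seq := by
  intro k₁ k₂ X _ μ _ T hT A hA hpos
  obtain ⟨N, hN, hp⟩ := positivity_all μ (actOf μ T hT) hA hpos k₁ k₂
  obtain ⟨n, hn⟩ := exists_seq hN
  refine ⟨n, ?_, ?_⟩
  · rw [hn]
    have := inT_pos hN
    exact_mod_cast this.ne'
  · rw [hn]
    have h1 : A ∩ (zpw T (k₁ * N)) ⁻¹' A ∩ (zpw T (k₂ * N)) ⁻¹' A
        = {x | x ∈ A ∧ (actOf μ T hT).P (k₁ * N) x ∈ A ∧ (actOf μ T hT).P (k₂ * N) x ∈ A} := by
      ext x
      simp only [Set.mem_inter_iff, Set.mem_preimage, Set.mem_ofPred_eq]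
      exact and_assoc
    rw [h1]
    unfold nz Measure.real at hp
    exact (ENNReal.toReal_pos_iff.1 hp).1

lemma emp_ge (K : ℕ) (g h : Fin 30) (hd : 1 / 1800 ≤ avg (fun x => ind (AZ K g h x))) :
    ENNReal.ofReal (1 / 1800) ≤ emp (code (AZ K g h)) (cyl 0) := by
  classical
  rw [emp_apply _ (cyl_clopen 0).1.measurableSet]
  have h1 : (Finset.univ.filter fun x => code (AZ K g h) x ∈ cyl 0)
      = Finset.univ.filter fun x => AZ K g h x := by
    ext x
    simp only [Finset.mem_filter, Finset.mem_univ, true_and]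
    have h2 := code_iff (AZ K g h) x 0
    show code (AZ K g h) x 0 = true ↔ AZ K g h x
    simpa using h2
  rw [h1]
  have h2 : avg (fun x => ind (AZ K g h x))
      = ((Finset.univ.filter fun x => AZ K g h x).card : ℝ)
        / (Fintype.card (ZMod (Lm K) × ZMod (Lm K)) : ℝ) := by
    unfold avg
    congr 1
    rw [Finset.card_filter]
    push_cast
    apply Finset.sum_congr rfl
    intro x _
    by_cases hx : AZ K g h x
    · rw [ind_true hx, if_pos hx]
    · rw [ind_false hx, if_neg hx]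
  rw [h2] at hd
  have hc : (0:ℝ) < (Fintype.card (ZMod (Lm K) × ZMod (Lm K)) : ℝ) := by
    exact_mod_cast Fintype.card_pos
  have h3 : (((Fintype.card (ZMod (Lm K) × ZMod (Lm K)) : ℕ) : ENNReal))⁻¹ *
      ((Finset.univ.filter fun x => AZ K g h x).card : ENNReal)
      = ENNReal.ofReal (((Finset.univ.filter fun x => AZ K g h x).card : ℝ)
        / (Fintype.card (ZMod (Lm K) × ZMod (Lm K)) : ℝ)) := by
    rw [ENNReal.ofReal_div_of_pos hc, ENNReal.ofReal_natCast, ENNReal.ofReal_natCast, mul_comm,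
      div_eq_mul_inv]
  rw [h3]
  exact ENNReal.ofReal_le_ofReal hd

/-- the commuting system -/
theorem commuting_system :
    ∃ (X : Type) (_ : MeasurableSpace X) (_ : StandardBorelSpace X) (μ : Measure X)
      (_ : IsProbabilityMeasure μ) (T₁ T₂ : X ≃ᵐ X) (A : Set X),
      MeasurePreserving T₁ μ μ ∧ MeasurePreserving T₂ μ μ ∧ (∀ x, T₁ (T₂ x) = T₂ (T₁ x)) ∧
      MeasurableSet A ∧ 0 < μ A ∧
      ∀ n, μ (A ∩ (zpw T₁ (seq n)) ⁻¹' A ∩ (zpw T₂ (seq n)) ⁻¹' A) = 0 := by
  obtain ⟨μ, hμ, h1, h2, h3, h4⟩ := limit_system InT (ENNReal.ofReal (1 / 1800))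
    (ENNReal.ofReal_pos.2 (by norm_num)) (by
      intro K
      obtain ⟨g, h, hd⟩ := exists_densez K
      exact ⟨Lm K, inferInstance, AZ K g h, emp_ge K g h hd,
        fun n hn hK x => no_cornerz K g h n hn hK x⟩)
  have hpre : ∀ (v : ℤ × ℤ) (N : ℕ), (zpw (shf v).symm (N : ℤ)) ⁻¹' cyl 0 = cyl (N • v) := by
    intro v N
    rw [← shf_image v N]
    unfold zpw
    rw [zpow_natCast, Equiv.image_eq_preimage_symm]
    have h5 : ((((shf v).symm).toEquiv : Equiv.Perm Om) ^ N : Equiv.Perm Om)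
        = (((shf v).toEquiv : Equiv.Perm Om) ^ N).symm := by
      have h6 : ((((shf v).symm).toEquiv : Equiv.Perm Om) : Equiv.Perm Om)
          = ((shf v).toEquiv : Equiv.Perm Om)⁻¹ := rfl
      rw [h6, inv_pow]
      rfl
    rw [h5]
  refine ⟨Om, inferInstance, inferInstance, μ, hμ, (shf (1, 0)).symm, (shf (0, 1)).symm, cyl 0,
    h1.symm _, h2.symm _, ?_, (cyl_clopen 0).1.measurableSet, h3, ?_⟩
  · intro x
    funext z
    show x (z + (1, 0) + (0, 1)) = x (z + (0, 1) + (1, 0))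
    congr 1
    abel
  · intro n
    obtain ⟨N, hN, hn⟩ := seq_mem n
    rw [hn, hpre, hpre]
    exact h4 N hN

/-- **Answer to Q1 (yes).** -/
theorem result :
    StrictMono seq ∧ (∀ n, 0 < seq n) ∧ GoodPowers.{u} seq ∧ ¬ GoodCommuting.{0} seq ∧
    ∃ (X : Type) (_ : MeasurableSpace X) (_ : StandardBorelSpace X) (μ : Measure X)
      (_ : IsProbabilityMeasure μ) (T₁ T₂ : X ≃ᵐ X) (A : Set X),
      MeasurePreserving T₁ μ μ ∧ MeasurePreserving T₂ μ μ ∧ (∀ x, T₁ (T₂ x) = T₂ (T₁ x)) ∧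
      MeasurableSet A ∧ 0 < μ A ∧
      ∀ n, μ (A ∩ (zpw T₁ (seq n)) ⁻¹' A ∩ (zpw T₂ (seq n)) ⁻¹' A) = 0 := by
  refine ⟨?_, ?_, goodPowers, ?_, commuting_system⟩
  · intro m n hmn
    unfold seq
    exact_mod_cast Nat.nth_strictMono digitSet_infinite hmn
  · intro n
    obtain ⟨N, hN, hn⟩ := seq_mem n
    rw [hn]
    have := inT_pos hN
    exact_mod_cast this
  · intro hgood
    obtain ⟨X, mX, _, μ, hμ, T₁, T₂, A, h1, h2, h3, h4, h5, h6⟩ := commuting_system
    obtain ⟨n, _, hn⟩ := hgood X μ T₁ T₂ h1 h2 h3 A h4 h5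
    rw [h6 n] at hn
    exact lt_irrefl _ hn

end Pool.Agent.Results.MP_02e9fb_an.PowersNotCommuting
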